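import Pool.Agent.BOG.Stmts

/-!
# MP_9a4f8a_co, row PTS (helper76)
-/

set_option autoImplicit false

namespace Pool.Agent.BOG.H76

open Finset Pool.Agent.BOG

/-- the common point of two lines with different slopes is unique -/
theorem uniq {K : Type*} [Field K] {X Y : K × K} {m c m' c' : K} (h : m ≠ m')
    (h1 : On X m c) (h2 : On X m' c') (h3 : On Y m c) (h4 : On Y m' c') : X = Y := by
  unfold On at h1 h2 h3 h4
  have e : (m - m') * (X.2 - Y.2) = 0 := by linear_combination h2 - h1 + h3 - h4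
  have e2 : X.2 = Y.2 := by
    rcases mul_eq_zero.1 e with h5 | h5
    · exact absurd (sub_eq_zero.1 h5) h
    · exact sub_eq_zero.1 h5
  exact Prod.ext (by rw [h1, h3, e2]) e2

/-- PTS -/
theorem pts.{v'} : PtsStmt.{v'} := by
  classical
  intro K _ n m c hm
  set pt : Fin n × Fin n → K × K := fun p =>
    (m p.1 * ((c p.2 - c p.1) / (m p.1 - m p.2)) + c p.1, (c p.2 - c p.1) / (m p.1 - m p.2))
    with hpt
  have hon : ∀ p : Fin n × Fin n, p.1 ≠ p.2 →
      On (pt p) (m p.1) (c p.1) ∧ On (pt p) (m p.2) (c p.2) := by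
    intro p hp
    have h1 : m p.1 - m p.2 ≠ 0 := sub_ne_zero.2 fun h => hp (hm h)
    refine ⟨rfl, ?_⟩
    show m p.1 * ((c p.2 - c p.1) / (m p.1 - m p.2)) + c p.1 =
      m p.2 * ((c p.2 - c p.1) / (m p.1 - m p.2)) + c p.2
    field_simp
    ring
  set T : Finset (Fin n × Fin n) := univ.filter fun p => p.1 ≠ p.2 with hT
  set S : Finset (K × K) := T.image pt with hS
  refine ⟨S, ?_, ?_, ?_⟩
  · intro Y hY
    obtain ⟨p, hp, rfl⟩ := mem_image.1 hY
    have hp' : p.1 ≠ p.2 := (mem_filter.1 hp).2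
    have h1 : ({p.1, p.2} : Finset (Fin n)) ⊆ univ.filter fun P => On (pt p) (m P) (c P) := by
      intro P hP
      rw [mem_insert, mem_singleton] at hP
      rcases hP with rfl | rfl
      · exact mem_filter.2 ⟨mem_univ _, (hon p hp').1⟩
      · exact mem_filter.2 ⟨mem_univ _, (hon p hp').2⟩
    have h2 := card_le_card h1
    rw [card_pair hp'] at h2
    unfold rr
    exact h2
  · intro P Q hPQ
    exact ⟨pt (P, Q), mem_image.2 ⟨(P, Q), mem_filter.2 ⟨mem_univ _, hPQ⟩, rfl⟩,
      hon (P, Q) hPQ⟩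
  · have h1 : ∀ Y ∈ S, rr m c Y * (rr m c Y - 1) = (T.filter fun p => pt p = Y).card := by
      intro Y _
      have h2 : (T.filter fun p => pt p = Y) =
          (univ.filter fun P => On Y (m P) (c P)).offDiag := by
        ext p
        rw [mem_filter, mem_filter, mem_offDiag, mem_filter, mem_filter]
        constructor
        · rintro ⟨⟨-, h3⟩, rfl⟩
          exact ⟨⟨mem_univ _, (hon p h3).1⟩, ⟨mem_univ _, (hon p h3).2⟩, h3⟩
        · rintro ⟨⟨-, h3⟩, ⟨-, h4⟩, h5⟩
          exact ⟨⟨mem_univ _, h5⟩, uniq (fun h => h5 (hm h)) (hon p h5).1 (hon p h5).2 h3 h4⟩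
      rw [h2, offDiag_card, Nat.mul_sub, mul_one]
      unfold rr
      rfl
    rw [sum_congr rfl h1, ← card_eq_sum_card_image]
    have h2 : T = (univ : Finset (Fin n)).offDiag := by
      ext p
      rw [mem_filter, mem_offDiag]
      exact ⟨fun h => ⟨mem_univ _, mem_univ _, h.2⟩, fun h => ⟨mem_univ _, h.2.2⟩⟩
    rw [h2, offDiag_card, card_univ, Fintype.card_fin, Nat.mul_sub, mul_one]

end Pool.Agent.BOG.H76
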